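import Pool.Agent.Y63.NV.Stm7
import Pool.Agent.Y171.NV.Kfin

/-!
# Project NV, part 7, KFINZ: from values of central characters to blocks, chains above `Z`
-/

set_option autoImplicit false

open scoped Classical

noncomputable section

namespace Pool.Agent.Y756.NV

open Pool.Agent.Y63.NV
open Pool.Agent.Y63.AWC (IsIrreducibleCharacter)
open Pool.Agent.Y63.KR (chainStabilizer conjSub)
open Pool.Agent.Y286.NV (exists_sep)
open Pool.Agent.Y171.NV (CFm mu mud irr_fin card_I card_K numIrrInd_conj)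

section

variable {G F : Type} [Group G] [Field F]

lemma wtz_fin (p : ℕ) (J : Type) [Group J] [Finite J] (Z : Subgroup J) :
    Finite {χ : J → ℂ // IsWt p Z χ} := by
  have := irr_fin J
  exact Finite.of_injective (fun χ : {χ : J → ℂ // IsWt p Z χ} =>
    (⟨χ.1, χ.2.irr⟩ : {χ : J → ℂ // IsIrreducibleCharacter χ}))
    (fun a b h => Subtype.ext (congrArg (fun t => t.1) h))

lemma card_Dz [Finite G] (p : ℕ) (red : integralClosure ℤ ℂ →+* F) (Z : Subgroup G)
    (B : (G → F) → F) (β : CFm G F → F) (hβ : ∀ f : CFm G F, B f.1 = β f) :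
    Nat.card {χ : {χ : G → ℂ // IsWt p Z χ} // (fun f => mud red χ.1 f) = β} =
      numWtIn p red Z B := by
  unfold numWtIn
  refine Nat.card_congr
    { toFun := fun χ => ⟨χ.1.1, χ.1.2, ?_⟩
      invFun := fun χ => ⟨⟨χ.1, χ.2.1⟩, ?_⟩
      left_inv := fun χ => rfl
      right_inv := fun χ => rfl }
  · intro f hf
    have h1 := congrFun χ.2 ⟨f, hf⟩
    rw [← hβ] at h1
    exact h1
  · funext f
    rw [← hβ]
    exact χ.2.2 f.1 f.2

lemma card_Wz [Finite G] (p : ℕ) (red : integralClosure ℤ ℂ →+* F) (Z : Subgroup G) (z : CFm G F)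
    (c : F) : Nw p red Z z.1 c =
      Nat.card {χ : {χ : G → ℂ // IsWt p Z χ} // mud red χ.1 z = c} := by
  unfold Nw
  exact Nat.card_congr
    { toFun := fun χ => ⟨⟨χ.1, χ.2.1⟩, χ.2.2⟩
      invFun := fun χ => ⟨χ.1.1, χ.1.2, χ.2⟩
      left_inv := fun χ => rfl
      right_inv := fun χ => rfl }

theorem bwdz [Finite G] [Infinite F] (p : ℕ) (red : integralClosure ℤ ℂ →+* F) (Z : Subgroup G)
    (h : ∀ (z : G → F) (c : F), IsClassFun z →
      (∑ᶠ σ : {σ : Set (Subgroup G) // IsPChainZ p Z σ}, (-1) ^ σ.1.ncard *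
        ((Nat.card (chainStabilizer σ.1) : ℤ) *
          Knum red (fun x : chainStabilizer σ.1 => z x) c)) =
      (Nat.card Z : ℤ) * ((Nat.card G : ℤ) * Nw p red Z z c)) (B : (G → F) → F)
    (b : CFm G F →ₗ[F] F) (hb : ∀ f : CFm G F, B f.1 = b f) :
    ∑ᶠ σ : {σ : Set (Subgroup G) // IsPChainZ p Z σ}, (-1) ^ σ.1.ncard *
      ((Nat.card (chainStabilizer σ.1) : ℤ) * (numIrrInd red (chainStabilizer σ.1) B : ℤ)) =
      (Nat.card Z : ℤ) * ((Nat.card G : ℤ) * numWtIn p red Z B) := by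
  have hX : ∀ H : Subgroup G, Finite {χ : H → ℂ // IsIrreducibleCharacter χ} := fun H => irr_fin H
  have hY : Finite {χ : G → ℂ // IsWt p Z χ} := wtz_fin p G Z
  let I : Type := {χ : G → ℂ // IsWt p Z χ} ⊕
    (Σ H : Subgroup G, {χ : H → ℂ // IsIrreducibleCharacter χ})
  let μ : I → (CFm G F →ₗ[F] F) := fun i =>
    Sum.elim (fun χ => mud red χ.1) (fun q => mu red q.1 q.2.1) i
  have hI : Finite I := inferInstance
  obtain ⟨z, hz⟩ := exists_sep μ b
  have h1 := h z.1 (b z) z.2
  have e1 : ∀ H : Subgroup G, Knum red (fun x : H => z.1 x) (b z) = numIrrInd red H B := by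
    intro H
    rw [card_K red H z, ← card_I red H B b hb]
    refine Nat.card_congr (Equiv.subtypeEquivRight fun χ => ?_)
    constructor
    · intro h2
      have h3 : mu red H χ.1 = b := hz (Sum.inr ⟨H, χ⟩) h2
      rw [h3]
    · intro h2
      exact congrFun h2 z
  have e2 : Nw p red Z z.1 (b z) = numWtIn p red Z B := by
    rw [card_Wz p red Z z, ← card_Dz p red Z B b hb]
    refine Nat.card_congr (Equiv.subtypeEquivRight fun χ => ?_)
    constructor
    · intro h2
      have h3 : mud red χ.1 = b := hz (Sum.inl χ) h2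
      rw [h3]
    · intro h2
      exact congrFun h2 z
  rw [← e2, ← h1]
  refine finsum_congr fun σ => ?_
  rw [e1]

theorem bwdz' [Finite G] [Infinite F] (p : ℕ) (red : integralClosure ℤ ℂ →+* F) (Z : Subgroup G)
    (h : ∀ (z : G → F) (c : F), IsClassFun z →
      (∑ᶠ σ : {σ : Set (Subgroup G) // IsPChainZ p Z σ}, (-1) ^ σ.1.ncard *
        ((Nat.card (chainStabilizer σ.1) : ℤ) *
          Knum red (fun x : chainStabilizer σ.1 => z x) c)) =
      (Nat.card Z : ℤ) * ((Nat.card G : ℤ) * Nw p red Z z c)) (B : (G → F) → F) :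
    ∑ᶠ σ : {σ : Set (Subgroup G) // IsPChainZ p Z σ}, (-1) ^ σ.1.ncard *
      ((Nat.card (chainStabilizer σ.1) : ℤ) * (numIrrInd red (chainStabilizer σ.1) B : ℤ)) =
      (Nat.card Z : ℤ) * ((Nat.card G : ℤ) * numWtIn p red Z B) := by
  by_cases hex : ∃ b : CFm G F →ₗ[F] F, ∀ f : CFm G F, B f.1 = b f
  · obtain ⟨b, hb⟩ := hex
    exact bwdz p red Z h B b hb
  · have e1 : ∀ H : Subgroup G, numIrrInd red H B = 0 := by
      intro H
      unfold numIrrInd
      have : IsEmpty {χ : H → ℂ // IsIrreducibleCharacter χ ∧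
          ∀ f : G → F, IsClassFun f → centralValue red χ (fun x => f x) = B f} :=
        ⟨fun χ => hex ⟨mu red H χ.1, fun f => (χ.2.2 f.1 f.2).symm⟩⟩
      exact Nat.card_of_isEmpty
    have e2 : numWtIn p red Z B = 0 := by
      unfold numWtIn
      have : IsEmpty {χ : G → ℂ // IsWt p Z χ ∧
          ∀ f : G → F, IsClassFun f → centralValue red χ f = B f} :=
        ⟨fun χ => hex ⟨mud red χ.1, fun f => (χ.2.2 f.1 f.2).symm⟩⟩
      exact Nat.card_of_isEmpty
    rw [e2, Nat.cast_zero, mul_zero, mul_zero]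
    have e3 : ∀ σ : {σ : Set (Subgroup G) // IsPChainZ p Z σ}, ((-1) ^ σ.1.ncard *
        ((Nat.card (chainStabilizer σ.1) : ℤ) *
          (numIrrInd red (chainStabilizer σ.1) B : ℤ)) : ℤ) = 0 := by
      intro σ
      rw [e1, Nat.cast_zero, mul_zero, mul_zero]
    rw [finsum_congr e3, finsum_zero]

end

theorem kfinz (h : S_ALTZ) : S_KFINZ := by
  intro p _ F _ _ _ red G _ _ Z hZ hid B hB
  have hInf : Infinite F := inferInstance
  have h1 := bwdz' p red Z hid B
  rw [hB, Nat.cast_zero, mul_zero, mul_zero] at h1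
  have h2 := h p G Z (fun H => (numIrrInd red H B : ℤ)) hZ
    (fun g H => by rw [numIrrInd_conj])
  have h3 : (Nat.card G : ℤ) * alternatingSumZ p Z (fun H => (numIrrInd red H B : ℤ)) = 0 :=
    h2.trans h1
  have hpos : (Nat.card G : ℤ) ≠ 0 := by exact_mod_cast Nat.card_pos.ne'
  exact (mul_eq_zero.1 h3).resolve_left hpos

end Pool.Agent.Y756.NV
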